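import Pool.Agent.Helper72.GP.GoalsB

/-!
# Project GP (MP_c9dfb5_co), packet LEMZ
-/

set_option autoImplicit false

namespace Pool.Agent.Helper25.GP

open Pool.Agent.Helper72.GP
open Finset Polynomial
open scoped Polynomial.Bivariate Classical

noncomputable section

/-- the real point of an integer point -/
def em (p : Pt) : ℝ × ℝ := ((p.1 : ℝ), (p.2 : ℝ))

theorem em_inj : Function.Injective em := by
  intro p q h
  have h1 : (p.1 : ℝ) = q.1 := congrArg Prod.fst h
  have h2 : (p.2 : ℝ) = q.2 := congrArg Prod.snd h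
  exact Prod.ext (by exact_mod_cast h1) (by exact_mod_cast h2)

theorem em_col (x y z : Pt) : ColR (em x) (em y) (em z) ↔ Col x y z := by
  unfold ColR Col em
  dsimp only
  constructor
  · intro h
    exact_mod_cast h
  · intro h
    exact_mod_cast h

/-- the polynomial in `x` which is the coefficient of `y^j` -/
def cfp {m : ℕ} (c : Fin m → Fin m → ℤ) (j : Fin m) : ℝ[X] :=
  ∑ i : Fin m, monomial (i : ℕ) ((c i j : ℤ) : ℝ)

/-- the polynomial -/
def bigF {m : ℕ} (c : Fin m → Fin m → ℤ) : ℝ[X][Y] := ∑ j : Fin m, monomial (j : ℕ) (cfp c j)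

theorem cfp_coeff {m : ℕ} (c : Fin m → Fin m → ℤ) (i j : Fin m) :
    (cfp c j).coeff i = (c i j : ℝ) := by
  unfold cfp
  rw [finsetSum_coeff, Finset.sum_eq_single i]
  · rw [coeff_monomial, if_pos rfl]
  · intro b _ hb
    rw [coeff_monomial, if_neg]
    intro h
    exact hb (Fin.ext h)
  · intro h
    exact absurd (mem_univ i) h

theorem bigF_coeff {m : ℕ} (c : Fin m → Fin m → ℤ) (j : Fin m) :
    (bigF c).coeff j = cfp c j := by
  unfold bigF
  rw [finsetSum_coeff, Finset.sum_eq_single j]
  · rw [coeff_monomial, if_pos rfl]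
  · intro b _ hb
    rw [coeff_monomial, if_neg]
    intro h
    exact hb (Fin.ext h)
  · intro h
    exact absurd (mem_univ j) h

theorem cfp_deg {m : ℕ} (c : Fin m → Fin m → ℤ) (j : Fin m) : (cfp c j).natDegree ≤ m := by
  unfold cfp
  refine natDegree_sum_le_of_forall_le _ _ ?_
  intro i _
  exact (natDegree_monomial_le _).trans i.2.le

theorem bigF_bdeg {m : ℕ} (c : Fin m → Fin m → ℤ) : BDeg m (bigF c) := by
  constructor
  · unfold bigF
    refine natDegree_sum_le_of_forall_le _ _ ?_
    intro i _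
    exact (natDegree_monomial_le _).trans i.2.le
  · intro j
    by_cases hj : j < m
    · have := bigF_coeff c ⟨j, hj⟩
      change (bigF c).coeff j = _ at this
      rw [this]
      exact cfp_deg c _
    · have : (bigF c).coeff j = 0 := by
        unfold bigF
        rw [finsetSum_coeff]
        refine Finset.sum_eq_zero ?_
        intro b _
        rw [coeff_monomial, if_neg]
        intro h
        exact hj (h ▸ b.2)
      rw [this]
      simp

theorem bigF_ne {m : ℕ} {c : Fin m → Fin m → ℤ} (hc : c ≠ 0) : bigF c ≠ 0 := by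
  intro h
  apply hc
  funext i j
  have h1 := bigF_coeff c j
  rw [h, coeff_zero] at h1
  have h2 := cfp_coeff c i j
  rw [← h1, coeff_zero] at h2
  have : ((c i j : ℤ) : ℝ) = 0 := h2.symm
  exact_mod_cast this

theorem evr_bigF {m : ℕ} (c : Fin m → Fin m → ℤ) (p : Pt) :
    evr (bigF c) (p.1 : ℝ) (p.2 : ℝ) = ((evc c p : ℤ) : ℝ) := by
  unfold evr bigF evc cfp evalEval
  simp only [eval_finsetSum, eval_monomial, eval_mul, eval_pow, eval_C]
  push_cast
  rw [Finset.sum_comm]
  refine Finset.sum_congr rfl fun i _ => ?_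
  rw [Finset.sum_mul]

theorem lemz (hLEMD : LEMD) : LEMZ := by
  intro m t c A hm ht hc hA hT hpos hcard
  set B : Finset (ℝ × ℝ) := A.image em with hB
  have hBc : B.card = A.card := card_image_of_injective A em_inj
  have hz : ∀ p ∈ B, evr (bigF c) p.1 p.2 = 0 := by
    intro p hp
    rw [hB, mem_image] at hp
    obtain ⟨q, hq, rfl⟩ := hp
    change evr (bigF c) (q.1 : ℝ) (q.2 : ℝ) = 0
    rw [evr_bigF, hA q hq]
    simp
  have hthin : ThinR t B := by
    intro x hx y hy hxy
    rw [hB, mem_image] at hx hy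
    obtain ⟨x', hx', rfl⟩ := hx
    obtain ⟨y', hy', rfl⟩ := hy
    have hne : x' ≠ y' := fun h => hxy (by rw [h])
    have hsub : B.filter (fun z => ColR (em x') (em y') z) ⊆
        (A.filter (fun z => Col x' y' z)).image em := by
      intro z hz'
      rw [mem_filter, hB, mem_image] at hz'
      obtain ⟨⟨w, hw, rfl⟩, hcol⟩ := hz'
      rw [mem_image]
      exact ⟨w, mem_filter.mpr ⟨hw, (em_col _ _ _).mp hcol⟩, rfl⟩
    refine (card_le_card hsub).trans ?_
    exact card_image_le.trans (hT x' hx' y' hy' hne)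
  obtain ⟨S, hS, hgen, hSc⟩ := hLEMD m t (bigF c) B hm ht (bigF_ne hc) (bigF_bdeg c) hz hthin
    (by rw [hBc]; exact hpos) (by rw [hBc]; exact hcard)
  refine ⟨A.filter (fun p => em p ∈ S), filter_subset _ _, ?_, ?_⟩
  · intro x hx y hy z hz' hxy hyz hxz hcol
    rw [mem_filter] at hx hy hz'
    exact hgen _ hx.2 _ hy.2 _ hz'.2 (fun h => hxy (em_inj h)) (fun h => hyz (em_inj h))
      (fun h => hxz (em_inj h)) ((em_col _ _ _).mpr hcol)
  · have himg : S = (A.filter (fun p => em p ∈ S)).image em := by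
      ext z
      rw [mem_image]
      constructor
      · intro hz'
        have := hS hz'
        rw [hB, mem_image] at this
        obtain ⟨w, hw, rfl⟩ := this
        exact ⟨w, mem_filter.mpr ⟨hw, hz'⟩, rfl⟩
      · rintro ⟨w, hw, rfl⟩
        exact (mem_filter.mp hw).2
    have hc2 : S.card = (A.filter (fun p => em p ∈ S)).card := by
      conv_lhs => rw [himg]
      exact card_image_of_injective _ em_inj
    rw [hBc, hc2] at hSc
    have hm0 : (0 : ℝ) < 64 * (m : ℝ) ^ 4 := by
      have : (0 : ℝ) < m := by exact_mod_cast hm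
      positivity
    rw [div_le_iff₀ hm0]
    have h3 : (A.card : ℝ) ≤ 64 * (m : ℝ) ^ 4 * ((A.filter (fun p => em p ∈ S)).card : ℝ) := by
      exact_mod_cast hSc
    linarith [mul_comm (64 * (m : ℝ) ^ 4) ((A.filter (fun p => em p ∈ S)).card : ℝ)]

end

end Pool.Agent.Helper25.GP
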