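import Pool.Agent.Helper72.GP.Goals

/-!
# Project GP (MP_c9dfb5_co), packet ONE
-/

set_option autoImplicit false

namespace Pool.Agent.Helper25.GP

open Pool.Agent.Helper72.GP
open Finset
open scoped Classical

noncomputable section

theorem card_lt (R L : ℕ) (hR : 0 < R) (hL : L ≤ R) :
    Nat.card {v : ZMod R // v.val < L} = L := by
  have : NeZero R := ⟨hR.ne'⟩
  have e : {v : ZMod R // v.val < L} ≃ Fin L :=
    { toFun := fun v => ⟨v.1.val, v.2⟩
      invFun := fun k => ⟨(k.1 : ZMod R), by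
        rw [ZMod.val_natCast_of_lt (lt_of_lt_of_le k.2 hL)]
        exact k.2⟩
      left_inv := by
        intro v
        apply Subtype.ext
        change ((v.1.val : ℕ) : ZMod R) = v.1
        exact ZMod.natCast_zmod_val v.1
      right_inv := by
        intro k
        apply Fin.ext
        change ((k.1 : ℕ) : ZMod R).val = k.1
        exact ZMod.val_natCast_of_lt (lt_of_lt_of_le k.2 hL) }
  rw [Nat.card_congr e, Nat.card_eq_fintype_card, Fintype.card_fin]

/-- the target of the bijection -/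
abbrev Tgt (R M L E : ℕ) : Type :=
  (Fin 8 → ZMod R × ZMod R) × (Fin 8 → {v : ZMod R // v.val < L}) × (Fin 8 → ZMod M) ×
    {v : ZMod M // v.val < E}

/-- quadratic form without the constant term -/
def q0 {M : ℕ} (l : Fin 8 → ZMod M) (U : Fin 8 → ℕ) : ZMod M :=
  ∑ i, (U i : ZMod M) ^ 2 + ∑ i, l i * (U i : ZMod M)

theorem Fq_eq {M : ℕ} (c : O2 M) (U : Fin 8 → ℕ) : Fq c U = c.1 + q0 c.2 U := by
  unfold Fq q0
  ring

/-- the bijection -/
def eqv (R M L E : ℕ) (x : Pt) :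
    {ω : O1 R × O2 M // Sel L E ω x} ≃ Tgt R M L E where
  toFun ω := (fun i => ((ω.1.1 i).1, (ω.1.1 i).2.1),
    fun i => ⟨lin (ω.1.1 i) x, ω.2.1 i⟩, ω.1.2.2, ⟨Fq ω.1.2 (UU ω.1.1 x), ω.2.2⟩)
  invFun t := ⟨(fun i => ((t.1 i).1, (t.1 i).2,
      (t.2.1 i).1 - (t.1 i).1 * x.1 - (t.1 i).2 * x.2),
      (t.2.2.2.1 - q0 t.2.2.1 (fun i => (t.2.1 i).1.val), t.2.2.1)), by
    have h1 : ∀ i, lin ((t.1 i).1, (t.1 i).2, (t.2.1 i).1 - (t.1 i).1 * x.1 - (t.1 i).2 * x.2) x =
        (t.2.1 i).1 := by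
      intro i
      simp only [lin]
      ring
    have h2 : UU (fun i => ((t.1 i).1, (t.1 i).2,
        (t.2.1 i).1 - (t.1 i).1 * x.1 - (t.1 i).2 * x.2)) x = fun i => (t.2.1 i).1.val := by
      funext i
      simp only [UU, h1]
    constructor
    · intro i
      change UU (fun i => ((t.1 i).1, (t.1 i).2,
        (t.2.1 i).1 - (t.1 i).1 * x.1 - (t.1 i).2 * x.2)) x i < L
      rw [h2]
      exact (t.2.1 i).2
    · change (Fq (t.2.2.2.1 - q0 t.2.2.1 (fun i => (t.2.1 i).1.val), t.2.2.1)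
        (UU (fun i => ((t.1 i).1, (t.1 i).2,
        (t.2.1 i).1 - (t.1 i).1 * x.1 - (t.1 i).2 * x.2)) x)).val < E
      rw [h2, Fq_eq]
      simp only [sub_add_cancel]
      exact t.2.2.2.2⟩
  left_inv := by
    intro ω
    apply Subtype.ext
    have h3 : (fun i => (lin (ω.1.1 i) x).val) = UU ω.1.1 x := rfl
    refine Prod.ext ?_ (Prod.ext ?_ rfl)
    · funext i
      refine Prod.ext rfl (Prod.ext rfl ?_)
      change lin (ω.1.1 i) x - (ω.1.1 i).1 * x.1 - (ω.1.1 i).2.1 * x.2 = (ω.1.1 i).2.2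
      simp only [lin]
      ring
    · change Fq ω.1.2 (UU ω.1.1 x) - q0 ω.1.2.2 (fun i => (lin (ω.1.1 i) x).val) = ω.1.2.1
      rw [h3, Fq_eq]
      ring
  right_inv := by
    intro t
    have h1 : ∀ i, lin ((t.1 i).1, (t.1 i).2, (t.2.1 i).1 - (t.1 i).1 * x.1 - (t.1 i).2 * x.2) x =
        (t.2.1 i).1 := by
      intro i
      simp only [lin]
      ring
    have h2 : UU (fun i => ((t.1 i).1, (t.1 i).2,
        (t.2.1 i).1 - (t.1 i).1 * x.1 - (t.1 i).2 * x.2)) x = fun i => (t.2.1 i).1.val := by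
      funext i
      simp only [UU, h1]
    refine Prod.ext ?_ (Prod.ext ?_ (Prod.ext rfl ?_))
    · funext i
      rfl
    · funext i
      apply Subtype.ext
      exact h1 i
    · apply Subtype.ext
      change Fq (t.2.2.2.1 - q0 t.2.2.1 (fun i => (t.2.1 i).1.val), t.2.2.1)
        (UU (fun i => ((t.1 i).1, (t.1 i).2,
        (t.2.1 i).1 - (t.1 i).1 * x.1 - (t.1 i).2 * x.2)) x) = t.2.2.2.1
      rw [h2, Fq_eq]
      simp only [sub_add_cancel]

theorem one : ONE := by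
  intro R M L E hR hM hL hE x
  have : NeZero R := ⟨hR.ne'⟩
  have : NeZero M := ⟨hM.ne'⟩
  rw [Nat.card_congr (eqv R M L E x)]
  have h8 : Nat.card (Fin 8) = 8 := by simp
  rw [Nat.card_prod, Nat.card_prod, Nat.card_prod, Nat.card_fun, Nat.card_fun, Nat.card_fun,
    Nat.card_prod, Nat.card_zmod, Nat.card_zmod, card_lt R L hR hL, card_lt M E hM hE, h8]
  ring

end

end Pool.Agent.Helper25.GP
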